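import Pool.Agent.H224R3.Dom3

/-!
# Symmetric random edges: annealed bounds (helper file)
-/

set_option autoImplicit false

namespace Pool.Agent.H44.ModeAvd

open Finset Pool.Agent.H224R3.Dom

/-- Symmetrised edges. -/
def se {a m : ℕ} (f : Fin m → Fin a × Fin a) : Fin (m + m) → Fin a × Fin a :=
  Fin.append f (fun b => (f b).swap)

/-- The weight of a connecting vertex. -/
noncomputable def u {a : ℕ} (l : ℝ) (X Y : Finset (Fin a)) (p : Fin a × Fin a) : ℝ :=
  if p.1 ∈ X ∧ p.2 ∈ Y then Real.exp (l / 2) else Real.exp (l / 2) + Real.exp (-(l / 2))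

lemma u_pos {a : ℕ} (l : ℝ) (X Y : Finset (Fin a)) (p : Fin a × Fin a) : 0 < u l X Y p := by
  unfold u
  split_ifs <;> positivity

lemma u_swap {a : ℕ} (l : ℝ) (X Y : Finset (Fin a)) (p : Fin a × Fin a) :
    u l X Y p.swap = u l Y X p := by
  unfold u
  simp only [Prod.fst_swap, Prod.snd_swap, and_comm]

lemma u_eq {a : ℕ} (l : ℝ) (X Y : Finset (Fin a)) (p : Fin a × Fin a) :
    u l X Y p = ∑ β : Bool, if β = true ∨ ¬ (p.1 ∈ X ∧ p.2 ∈ Y) then
      Real.exp (l * ((if β = true then 1 else 0) - 1 / 2)) else 0 := by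
  rw [Fintype.sum_bool]
  unfold u
  by_cases h : p.1 ∈ X ∧ p.2 ∈ Y
  · simp only [h, not_true, or_false, Bool.false_eq_true, if_true, if_false, add_zero,
      and_self]
    congr 1; ring
  · simp only [h, not_false_eq_true, or_true, Bool.false_eq_true, if_true, if_false]
    congr 1 <;> congr 1 <;> ring

lemma sum_c3 {a M : ℕ} (l : ℝ) (e : Fin M → Fin a × Fin a) (X Y : Finset (Fin a)) :
    (∑ c3 : Fin M → Bool, if (∀ b, c3 b = true ∨ ¬ ((e b).1 ∈ X ∧ (e b).2 ∈ Y)) then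
      ∏ b, Real.exp (l * ((if c3 b = true then 1 else 0) - 1 / 2)) else 0) =
      ∏ b, u l X Y (e b) := by
  simp_rw [u_eq]
  rw [Finset.prod_univ_sum, Fintype.piFinset_univ]
  apply sum_congr rfl
  intro c _
  rw [Finset.prod_ite_zero]
  simp

/-- The sum of the weights of the dominating configurations. -/
lemma sum_Dm {a M : ℕ} (e : Fin M → Fin a × Fin a)
    (cond : (Fin a → Finset (Fin 4)) → (Fin a → Finset (Fin 4)) → Prop)
    [∀ x y, Decidable (cond x y)] (l μ1 μ2 : ℝ) :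
    ∑ c ∈ (univ.filter (Dm e)).filter (fun c => cond c.1 c.2.1),
      Real.exp (l * ((sz c : ℝ) - (a * μ1 + a * μ2 + M * (1 / 2)))) =
    ∑ c1 ∈ Fintype.piFinset (fun _ : Fin a => VI), ∑ c2 ∈ Fintype.piFinset (fun _ : Fin a => VII),
      if cond c1 c2 then (∏ i, Real.exp (l * ((c1 i).card - μ1))) *
        (∏ j, Real.exp (l * ((c2 j).card - μ2))) * ∏ b, u l (XX c1) (YY c2) (e b) else 0 := by
  have hset : (univ.filter (Dm e)).filter (fun c => cond c.1 c.2.1) =
      (Fintype.piFinset (fun _ : Fin a => VI) ×ˢ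
        (Fintype.piFinset (fun _ : Fin a => VII) ×ˢ (univ : Finset (Fin M → Bool)))).filter
        (fun c => (∀ b, c.2.2 b = true ∨ ¬ ((e b).1 ∈ XX c.1 ∧ (e b).2 ∈ YY c.2.1)) ∧
          cond c.1 c.2.1) := by
    ext ⟨c1, c2, c3⟩
    simp only [mem_filter, mem_univ, true_and, mem_product, Fintype.mem_piFinset, VI, VII, XX, YY,
      Dm, and_true]
    constructor
    · rintro ⟨⟨h1, h2, h3⟩, h4⟩
      refine ⟨⟨h1, h2⟩, fun b => ?_, h4⟩
      have := h3 b
      tauto
    · rintro ⟨⟨h1, h2⟩, h3, h4⟩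
      refine ⟨⟨h1, h2, fun b => ?_⟩, h4⟩
      have := h3 b
      tauto
  rw [hset, sum_filter, sum_product]
  apply sum_congr rfl
  intro c1 _
  rw [sum_product]
  apply sum_congr rfl
  intro c2 _
  by_cases hc : cond c1 c2
  · rw [if_pos hc, ← sum_c3, mul_sum]
    apply sum_congr rfl
    intro c3 _
    simp only [hc, and_true]
    split_ifs with h
    · rw [← Real.exp_sum, ← Real.exp_sum, ← Real.exp_sum, ← Real.exp_add, ← Real.exp_add]
      congr 1
      simp only [← mul_sum, sum_sub_distrib, sum_const, card_univ, Fintype.card_fin, sz]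
      push_cast
      simp only [nsmul_eq_mul]
      ring
    · simp
  · rw [if_neg hc]
    apply sum_eq_zero
    intro c3 _
    simp [hc]

lemma sum_f {a m : ℕ} (l : ℝ) (X Y : Finset (Fin a)) :
    ∑ f : Fin m → Fin a × Fin a, ∏ b, u l X Y (se f b) =
      (∑ p, u l X Y p * u l X Y p.swap) ^ m := by
  have h := Finset.prod_univ_sum (fun _ : Fin m => (univ : Finset (Fin a × Fin a)))
    (fun _ p => u l X Y p * u l X Y p.swap)
  rw [prod_const, card_univ, Fintype.card_fin, Fintype.piFinset_univ] at h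
  rw [h]
  apply sum_congr rfl
  intro f _
  rw [Fin.prod_univ_add, prod_mul_distrib]
  simp only [se, Fin.append_left, Fin.append_right]

lemma sum_pair_le {a : ℕ} (l : ℝ) (X Y : Finset (Fin a)) :
    ∑ p, u l X Y p * u l X Y p.swap ≤
      (a : ℝ) ^ 2 * (Real.exp (l / 2) + Real.exp (-(l / 2))) ^ 2 -
      X.card * Y.card * ((Real.exp (l / 2) + Real.exp (-(l / 2))) ^ 2 - Real.exp (l / 2) ^ 2) := by
  have h1 : ∑ p, u l X Y p * u l X Y p.swap ≤ ∑ p : Fin a × Fin a, u l X Y p ^ 2 := by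
    have e1 : ∑ p : Fin a × Fin a, u l X Y p.swap ^ 2 = ∑ p : Fin a × Fin a, u l X Y p ^ 2 :=
      (Equiv.prodComm (Fin a) (Fin a)).sum_comp (fun p => u l X Y p ^ 2)
    have e2 : ∑ p, u l X Y p * u l X Y p.swap ≤
        ∑ p : Fin a × Fin a, (u l X Y p ^ 2 + u l X Y p.swap ^ 2) / 2 := by
      apply sum_le_sum
      intro p _
      nlinarith [sq_nonneg (u l X Y p - u l X Y p.swap)]
    rw [← sum_div, sum_add_distrib, e1] at e2
    linarith
  refine h1.trans (le_of_eq ?_)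
  set w0 := Real.exp (l / 2) + Real.exp (-(l / 2)) with hw0
  have h2 : ∀ p : Fin a × Fin a, u l X Y p ^ 2 =
      w0 ^ 2 - if p ∈ X ×ˢ Y then (w0 ^ 2 - Real.exp (l / 2) ^ 2) else 0 := by
    intro p
    unfold u
    simp only [mem_product]
    split_ifs <;> ring
  simp_rw [h2]
  rw [sum_sub_distrib, sum_const, card_univ, Fintype.card_prod, Fintype.card_fin, nsmul_eq_mul,
    ← sum_filter, sum_const, nsmul_eq_mul]
  have h3 : (univ.filter fun p : Fin a × Fin a => p ∈ X ×ˢ Y) = X ×ˢ Y := by ext; simp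
  rw [h3, card_product]
  push_cast
  ring

lemma Phi_le {a m : ℕ} (ha : 0 < a) (l : ℝ) (hl : l ≤ 1 / 2) (X Y : Finset (Fin a)) :
    ∑ f : Fin m → Fin a × Fin a, ∏ b, u l X Y (se f b) ≤
      ((a : ℝ) ^ 2 * (4 * Real.exp (l ^ 2 / 4))) ^ m *
        Real.exp (-((m : ℝ) / (2 * (a : ℝ) ^ 2) * X.card * Y.card)) := by
  rw [sum_f]
  have haR : (0 : ℝ) < a := by exact_mod_cast ha
  set w0 := Real.exp (l / 2) + Real.exp (-(l / 2)) with hw0
  have hw0pos : 0 < w0 := by positivity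
  have hxy : (0 : ℝ) ≤ X.card * Y.card := by positivity
  have hw0le : w0 ^ 2 ≤ 4 * Real.exp (l ^ 2 / 4) := by
    have h1 : Real.cosh (l / 2) ≤ Real.exp ((l / 2) ^ 2 / 2) := Real.cosh_le_exp_half_sq _
    rw [Real.cosh_eq] at h1
    have h2 : w0 ≤ 2 * Real.exp (l ^ 2 / 8) := by
      have : (l / 2) ^ 2 / 2 = l ^ 2 / 8 := by ring
      rw [this] at h1
      rw [hw0]
      linarith
    calc w0 ^ 2 ≤ (2 * Real.exp (l ^ 2 / 8)) ^ 2 := pow_le_pow_left₀ hw0pos.le h2 2
      _ = 4 * Real.exp (l ^ 2 / 4) := by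
        rw [mul_pow, ← Real.exp_nat_mul]
        congr 1
        · norm_num
        · congr 1; push_cast; ring
  have hhalf : w0 ^ 2 / 2 ≤ w0 ^ 2 - Real.exp (l / 2) ^ 2 := by
    have h1 : Real.exp l ≤ 2 := by
      calc Real.exp l ≤ Real.exp (1 / 2) := Real.exp_le_exp.2 hl
        _ ≤ 2 := by
          have h1 := Real.exp_one_lt_d9
          have h2 : Real.exp (1 / 2) * Real.exp (1 / 2) = Real.exp 1 := by
            rw [← Real.exp_add]; norm_num
          have h3 := Real.exp_pos (1 / 2)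
          nlinarith
    have e1 : w0 ^ 2 = Real.exp l + 2 + Real.exp (-l) := by
      rw [hw0]
      have f1 : Real.exp (l / 2) * Real.exp (l / 2) = Real.exp l := by
        rw [← Real.exp_add]; ring_nf
      have f2 : Real.exp (-(l / 2)) * Real.exp (-(l / 2)) = Real.exp (-l) := by
        rw [← Real.exp_add]; ring_nf
      have f3 : Real.exp (l / 2) * Real.exp (-(l / 2)) = 1 := by
        rw [← Real.exp_add]; simp
      linear_combination f1 + f2 + 2 * f3
    have e2 : Real.exp (l / 2) ^ 2 = Real.exp l := by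
      rw [← Real.exp_nat_mul]; congr 1; push_cast; ring
    have e3 := Real.exp_pos (-l)
    rw [e1, e2]
    linarith
  have hstep : ∑ p, u l X Y p * u l X Y p.swap ≤
      (a : ℝ) ^ 2 * (4 * Real.exp (l ^ 2 / 4)) * Real.exp (-(X.card * Y.card / (2 * (a : ℝ) ^ 2))) := by
    have h1 := sum_pair_le l X Y
    rw [← hw0] at h1
    have h2 : ∑ p, u l X Y p * u l X Y p.swap ≤
        (a : ℝ) ^ 2 * w0 ^ 2 * (1 - X.card * Y.card / (2 * (a : ℝ) ^ 2)) := by
      have e1 : (a : ℝ) ^ 2 * w0 ^ 2 * (1 - X.card * Y.card / (2 * (a : ℝ) ^ 2)) =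
          (a : ℝ) ^ 2 * w0 ^ 2 - X.card * Y.card * (w0 ^ 2 / 2) := by
        field_simp
      rw [e1]
      nlinarith [mul_le_mul_of_nonneg_left hhalf hxy]
    have h3 : 1 - (X.card * Y.card : ℝ) / (2 * (a : ℝ) ^ 2) ≤
        Real.exp (-(X.card * Y.card / (2 * (a : ℝ) ^ 2))) := Real.one_sub_le_exp_neg _
    calc _ ≤ (a : ℝ) ^ 2 * w0 ^ 2 * (1 - X.card * Y.card / (2 * (a : ℝ) ^ 2)) := h2
      _ ≤ (a : ℝ) ^ 2 * w0 ^ 2 * Real.exp (-(X.card * Y.card / (2 * (a : ℝ) ^ 2))) :=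
          mul_le_mul_of_nonneg_left h3 (by positivity)
      _ ≤ _ := by gcongr
  have hnn : 0 ≤ ∑ p, u l X Y p * u l X Y p.swap :=
    sum_nonneg fun p _ => mul_nonneg (u_pos _ _ _ _).le (u_pos _ _ _ _).le
  calc (∑ p, u l X Y p * u l X Y p.swap) ^ m ≤ _ := pow_le_pow_left₀ hnn hstep m
    _ = _ := by
      rw [mul_pow, ← Real.exp_nat_mul]
      congr 2
      field_simp

end Pool.Agent.H44.ModeAvd
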