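import Pool.Agent.H44.ModeAvd1

/-!
# Annealed bounds for the phases (helper file)
-/

set_option autoImplicit false

namespace Pool.Agent.H44.ModeAvd

open Finset Pool.Agent.H224R3.Dom

lemma gad (A : Finset (Finset (Fin 4))) (μ : ℝ) (h0 : 0 ≤ μ) (h4 : μ ≤ 4)
    (hs : ∑ s ∈ A, (s.card : ℝ) = μ * A.card) (l : ℝ) (hl : |l| ≤ 1 / 4) :
    ∑ s ∈ A, Real.exp (l * (s.card - μ)) ≤ A.card * Real.exp (16 * l ^ 2) := by
  have hb : ∀ s ∈ A, Real.exp (l * (s.card - μ)) ≤ 1 + l * (s.card - μ) + 16 * l ^ 2 := by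
    intro s _
    have hs4 : (s.card : ℝ) ≤ 4 := by
      have := card_le_univ s
      rw [Fintype.card_fin] at this
      exact_mod_cast this
    have hs0 : (0 : ℝ) ≤ s.card := Nat.cast_nonneg _
    have hd : |(s.card : ℝ) - μ| ≤ 4 := abs_le.2 ⟨by linarith, by linarith⟩
    have h1 : |l * (s.card - μ)| ≤ 1 := by
      rw [abs_mul]
      calc |l| * |(s.card : ℝ) - μ| ≤ 1 / 4 * 4 := mul_le_mul hl hd (abs_nonneg _) (by norm_num)
        _ = 1 := by norm_num
    have h2 := Real.abs_exp_sub_one_sub_id_le h1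
    have h3 := (abs_le.1 h2).2
    have h4' : (l * ((s.card : ℝ) - μ)) ^ 2 ≤ 16 * l ^ 2 := by
      have : ((s.card : ℝ) - μ) ^ 2 ≤ 16 := by
        rw [← sq_abs]
        nlinarith [abs_nonneg ((s.card : ℝ) - μ)]
      nlinarith [sq_nonneg l]
    linarith
  calc ∑ s ∈ A, Real.exp (l * (s.card - μ)) ≤ ∑ s ∈ A, (1 + l * (s.card - μ) + 16 * l ^ 2) :=
        sum_le_sum hb
    _ = A.card * (16 * l ^ 2 + 1) := by
        rw [sum_add_distrib, sum_add_distrib, ← mul_sum, sum_sub_distrib, hs, sum_const, sum_const,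
          sum_const]
        simp only [nsmul_eq_mul]
        ring
    _ ≤ A.card * Real.exp (16 * l ^ 2) :=
        mul_le_mul_of_nonneg_left (Real.add_one_le_exp _) (Nat.cast_nonneg _)

/-- A gadget with eight dominating states and one other state of weight `ρ`. -/
lemma gad2 (A : Finset (Finset (Fin 4))) (q : Finset (Fin 4) → Prop) [DecidablePred q] (μ : ℝ)
    (h0 : 0 ≤ μ) (h4 : μ ≤ 4) (hc : (A.filter fun s => ¬ q s).card = 8)
    (hc1 : (A.filter q).card = 1)
    (hs : ∑ s ∈ A.filter (fun s => ¬ q s), (s.card : ℝ) = μ * 8) (l ρ : ℝ) (hl : |l| ≤ 1 / 4)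
    (hρ : 0 ≤ ρ) :
    ∑ s ∈ A, Real.exp (l * (s.card - μ)) * (if q s then ρ else 1) ≤
      8 * Real.exp (16 * l ^ 2 + ρ / 2) := by
  have e1 : ∑ s ∈ A, Real.exp (l * (s.card - μ)) * (if q s then ρ else 1) =
      ∑ s ∈ A.filter q, Real.exp (l * (s.card - μ)) * ρ +
      ∑ s ∈ A.filter (fun s => ¬ q s), Real.exp (l * (s.card - μ)) := by
    rw [← sum_filter_add_sum_filter_not A q]
    congr 1
    · apply sum_congr rfl
      intro s hs
      rw [if_pos (mem_filter.1 hs).2]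
    · apply sum_congr rfl
      intro s hs
      rw [if_neg (mem_filter.1 hs).2, mul_one]
  have h8 : ∑ s ∈ A.filter (fun s => ¬ q s), (s.card : ℝ) =
      μ * ((A.filter fun s => ¬ q s).card : ℝ) := by rw [hs, hc]; norm_num
  have e2 := gad (A.filter fun s => ¬ q s) μ h0 h4 h8 l hl
  rw [hc] at e2
  have e3 : ∑ s ∈ A.filter q, Real.exp (l * (s.card - μ)) * ρ ≤ 4 * ρ := by
    have hb : ∀ s ∈ A.filter q, Real.exp (l * (s.card - μ)) * ρ ≤ 4 * ρ := by
      intro s _
      apply mul_le_mul_of_nonneg_right _ hρ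
      have hs4 : (s.card : ℝ) ≤ 4 := by
        have := card_le_univ s
        rw [Fintype.card_fin] at this
        exact_mod_cast this
      have hs0 : (0 : ℝ) ≤ s.card := Nat.cast_nonneg _
      have hd : |(s.card : ℝ) - μ| ≤ 4 := abs_le.2 ⟨by linarith, by linarith⟩
      have h1 : l * (s.card - μ) ≤ 1 := by
        refine (le_abs_self _).trans ?_
        rw [abs_mul]
        calc |l| * |(s.card : ℝ) - μ| ≤ 1 / 4 * 4 :=
              mul_le_mul hl hd (abs_nonneg _) (by norm_num)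
          _ = 1 := by norm_num
      calc Real.exp (l * (s.card - μ)) ≤ Real.exp 1 := Real.exp_le_exp.2 h1
        _ ≤ 4 := by
          have := Real.exp_one_lt_d9
          linarith
    calc _ ≤ ∑ s ∈ A.filter q, 4 * ρ := sum_le_sum hb
      _ = 4 * ρ := by rw [sum_const, hc1]; simp
  rw [e1, Real.exp_add]
  have h5 : (1 : ℝ) ≤ Real.exp (16 * l ^ 2) := Real.one_le_exp (by positivity)
  have h6 : 1 + ρ / 2 ≤ Real.exp (ρ / 2) := by
    have := Real.add_one_le_exp (ρ / 2)
    linarith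
  have h7 : 8 * Real.exp (16 * l ^ 2) * (1 + ρ / 2) ≤
      8 * (Real.exp (16 * l ^ 2) * Real.exp (ρ / 2)) := by
    rw [mul_assoc]
    gcongr
  push_cast at e2
  nlinarith [mul_nonneg hρ (sub_nonneg.2 h5)]

lemma prod_sum_VI (a : ℕ) (A : Finset (Finset (Fin 4))) (g : Finset (Fin 4) → ℝ) :
    ∑ c ∈ Fintype.piFinset (fun _ : Fin a => A), ∏ i, g (c i) = (∑ s ∈ A, g s) ^ a := by
  have h := Finset.prod_univ_sum (fun _ : Fin a => A) (fun _ s => g s)
  rw [prod_const, card_univ, Fintype.card_fin] at h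
  exact h.symm

lemma sumVI : ∑ x ∈ VI, (x.card : ℝ) = 23 / 9 * (VI.card : ℝ) := by
  have h1 : ∑ x ∈ VI, x.card = 23 := by decide
  have h2 : VI.card = 9 := by decide
  rw [← Nat.cast_sum, h1, h2]; norm_num

lemma sumVII : ∑ x ∈ VII, (x.card : ℝ) = 8 / 3 * (VII.card : ℝ) := by
  have h1 : ∑ x ∈ VII, x.card = 24 := by decide
  have h2 : VII.card = 9 := by decide
  rw [← Nat.cast_sum, h1, h2]; norm_num

lemma cVI1 : (VI.filter (fun s => (0 : Fin 4) ∉ s)).card = 1 := by decide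
lemma cVI8 : (VI.filter (fun s => ¬ (0 : Fin 4) ∉ s)).card = 8 := by decide
lemma cVII1 : (VII.filter (fun s => (0 : Fin 4) ∉ s ∧ (1 : Fin 4) ∉ s)).card = 1 := by decide
lemma cVII8 : (VII.filter (fun s => ¬ ((0 : Fin 4) ∉ s ∧ (1 : Fin 4) ∉ s))).card = 8 := by decide

lemma sVI8 : ∑ s ∈ VI.filter (fun s => ¬ (0 : Fin 4) ∉ s), (s.card : ℝ) = 5 / 2 * 8 := by
  have h1 : ∑ s ∈ VI.filter (fun s => ¬ (0 : Fin 4) ∉ s), s.card = 20 := by decide
  rw [← Nat.cast_sum, h1]; norm_num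

lemma sVII8 : ∑ s ∈ VII.filter (fun s => ¬ ((0 : Fin 4) ∉ s ∧ (1 : Fin 4) ∉ s)), (s.card : ℝ) =
    11 / 4 * 8 := by
  have h1 : ∑ s ∈ VII.filter (fun s => ¬ ((0 : Fin 4) ∉ s ∧ (1 : Fin 4) ∉ s)), s.card = 22 := by
    decide
  rw [← Nat.cast_sum, h1]; norm_num

/-- First phase. -/
def P1 {a m : ℕ} (t : ℕ) (f : Fin m → Fin a × Fin a) : Finset (C a (m + m)) :=
  (univ.filter (Dm (se f))).filter fun c => t ≤ (XX c.1).card

/-- Second phase. -/
def P2 {a m : ℕ} (t : ℕ) (f : Fin m → Fin a × Fin a) : Finset (C a (m + m)) :=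
  (univ.filter (Dm (se f))).filter fun c => t ≤ (YY c.2.1).card

/-- The rest. -/
def P3 {a m : ℕ} (t : ℕ) (f : Fin m → Fin a × Fin a) : Finset (C a (m + m)) :=
  (univ.filter (Dm (se f))).filter fun c => (XX c.1).card < t ∧ (YY c.2.1).card < t

/-- The mean of the first phase. -/
noncomputable def m1 (a m : ℕ) : ℝ := a * (23 / 9) + a * (11 / 4) + ((m + m : ℕ) : ℝ) * (1 / 2)
/-- The mean of the second phase. -/
noncomputable def m2 (a m : ℕ) : ℝ := a * (5 / 2) + a * (8 / 3) + ((m + m : ℕ) : ℝ) * (1 / 2)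

/-- The size of a phase. -/
noncomputable def ZZ (a m : ℕ) : ℝ := 4 ^ m * (9 ^ a * 8 ^ a)

lemma ZZ_pos (a m : ℕ) : 0 < ZZ a m := by unfold ZZ; positivity

theorem P1_le (a m t : ℕ) (ha : 0 < a) (l : ℝ) (hl : |l| ≤ 1 / 4) :
    ∑ f : Fin m → Fin a × Fin a, ∑ c ∈ P1 t f, Real.exp (l * ((sz c : ℝ) - m1 a m)) ≤
      ((a : ℝ) ^ 2) ^ m * (ZZ a m * Real.exp (l ^ 2 / 4 * m + 32 * l ^ 2 * a +
        Real.exp (-((m : ℝ) / (2 * (a : ℝ) ^ 2) * t)) / 2 * a)) := by
  set ρ := Real.exp (-((m : ℝ) / (2 * (a : ℝ) ^ 2) * t)) with hρ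
  have haR : (0 : ℝ) < a := by exact_mod_cast ha
  have hl2 : l ≤ 1 / 2 := by
    have := (abs_le.1 hl).2
    linarith
  have h1 : ∀ f : Fin m → Fin a × Fin a, ∑ c ∈ P1 t f, Real.exp (l * ((sz c : ℝ) - m1 a m)) =
      ∑ c1 ∈ Fintype.piFinset (fun _ : Fin a => VI),
        ∑ c2 ∈ Fintype.piFinset (fun _ : Fin a => VII),
      if t ≤ (XX c1).card then (∏ i, Real.exp (l * ((c1 i).card - 23 / 9))) *
        (∏ j, Real.exp (l * ((c2 j).card - 11 / 4))) * ∏ b, u l (XX c1) (YY c2) (se f b)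
          else 0 := fun f => sum_Dm (se f) (fun x _ => t ≤ (XX x).card) l (23 / 9) (11 / 4)
  simp_rw [h1]
  rw [sum_comm]
  have h2 : ∀ c1 ∈ Fintype.piFinset (fun _ : Fin a => VI),
      ∀ c2 ∈ Fintype.piFinset (fun _ : Fin a => VII),
      ∑ f : Fin m → Fin a × Fin a, (if t ≤ (XX c1).card then
        (∏ i, Real.exp (l * ((c1 i).card - 23 / 9))) *
        (∏ j, Real.exp (l * ((c2 j).card - 11 / 4))) * ∏ b, u l (XX c1) (YY c2) (se f b)
          else 0) ≤
      ((a : ℝ) ^ 2 * (4 * Real.exp (l ^ 2 / 4))) ^ m *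
        ((∏ i, Real.exp (l * ((c1 i).card - 23 / 9))) *
          ∏ j, (Real.exp (l * ((c2 j).card - 11 / 4)) *
            (if (0 : Fin 4) ∉ c2 j ∧ (1 : Fin 4) ∉ c2 j then ρ else 1))) := by
    intro c1 _ c2 _
    by_cases hx : t ≤ (XX c1).card
    · simp only [hx, if_true]
      rw [← mul_sum, prod_mul_distrib, prod_ite, prod_const, prod_const, one_pow, mul_one]
      have h3 := Phi_le (m := m) ha l hl2 (XX c1) (YY c2)
      have h4 : Real.exp (-((m : ℝ) / (2 * (a : ℝ) ^ 2) * (XX c1).card * (YY c2).card)) ≤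
          ρ ^ (YY c2).card := by
        rw [hρ, ← Real.exp_nat_mul]
        apply Real.exp_le_exp.2
        have : (t : ℝ) ≤ (XX c1).card := by exact_mod_cast hx
        have h5 : (m : ℝ) / (2 * (a : ℝ) ^ 2) * t * (YY c2).card ≤
          (m : ℝ) / (2 * (a : ℝ) ^ 2) * (XX c1).card * (YY c2).card := by gcongr
        linarith
      have h6 : (univ.filter fun j => (0 : Fin 4) ∉ c2 j ∧ (1 : Fin 4) ∉ c2 j).card =
        (YY c2).card := rfl
      rw [h6]
      set U := (∏ i, Real.exp (l * ((c1 i).card - 23 / 9))) with hU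
      set W := (∏ j, Real.exp (l * ((c2 j).card - 11 / 4))) with hW
      have hU0 : 0 < U := by positivity
      have hW0 : 0 < W := by positivity
      calc U * W * ∑ f : Fin m → Fin a × Fin a, ∏ b, u l (XX c1) (YY c2) (se f b) ≤
          U * W * (((a : ℝ) ^ 2 * (4 * Real.exp (l ^ 2 / 4))) ^ m * ρ ^ (YY c2).card) := by
            refine mul_le_mul_of_nonneg_left (h3.trans ?_) (by positivity)
            exact mul_le_mul_of_nonneg_left h4 (by positivity)
        _ = _ := by ring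
    · simp only [hx, if_false, sum_const_zero]
      positivity
  have h3 : ∑ c1 ∈ Fintype.piFinset (fun _ : Fin a => VI),
      ∑ f : Fin m → Fin a × Fin a, ∑ c2 ∈ Fintype.piFinset (fun _ : Fin a => VII),
      (if t ≤ (XX c1).card then
        (∏ i, Real.exp (l * ((c1 i).card - 23 / 9))) *
        (∏ j, Real.exp (l * ((c2 j).card - 11 / 4))) * ∏ b, u l (XX c1) (YY c2) (se f b)
          else 0) ≤
      ∑ c1 ∈ Fintype.piFinset (fun _ : Fin a => VI),
        ∑ c2 ∈ Fintype.piFinset (fun _ : Fin a => VII),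
        ((a : ℝ) ^ 2 * (4 * Real.exp (l ^ 2 / 4))) ^ m *
        ((∏ i, Real.exp (l * ((c1 i).card - 23 / 9))) *
          ∏ j, (Real.exp (l * ((c2 j).card - 11 / 4)) *
            (if (0 : Fin 4) ∉ c2 j ∧ (1 : Fin 4) ∉ c2 j then ρ else 1))) := by
    apply sum_le_sum
    intro c1 hc1
    rw [sum_comm]
    exact sum_le_sum fun c2 hc2 => h2 c1 hc1 c2 hc2
  refine h3.trans ?_
  simp_rw [← mul_sum]
  rw [← sum_mul]
  rw [prod_sum_VI a VI (fun s => Real.exp (l * (s.card - 23 / 9))),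
    prod_sum_VI a VII (fun s => Real.exp (l * (s.card - 11 / 4)) *
      (if (0 : Fin 4) ∉ s ∧ (1 : Fin 4) ∉ s then ρ else 1))]
  have g1 := gad VI (23 / 9) (by norm_num) (by norm_num) sumVI l hl
  have g2 := gad2 VII (fun s => (0 : Fin 4) ∉ s ∧ (1 : Fin 4) ∉ s) (11 / 4) (by norm_num)
    (by norm_num) cVII8 cVII1 sVII8 l ρ hl (Real.exp_pos _).le
  have c9 : (VI.card : ℝ) = 9 := by
    have : VI.card = 9 := by decide
    rw [this]; norm_num
  rw [c9] at g1
  have k1 : (∑ s ∈ VI, Real.exp (l * (s.card - 23 / 9))) ^ a ≤ (9 * Real.exp (16 * l ^ 2)) ^ a :=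
    pow_le_pow_left₀ (sum_nonneg fun s _ => (Real.exp_pos _).le) g1 a
  have k2 : (∑ s ∈ VII, Real.exp (l * (s.card - 11 / 4)) *
      (if (0 : Fin 4) ∉ s ∧ (1 : Fin 4) ∉ s then ρ else 1)) ^ a ≤
      (8 * Real.exp (16 * l ^ 2 + ρ / 2)) ^ a := by
    apply pow_le_pow_left₀ _ g2 a
    apply sum_nonneg
    intro s _
    have : 0 ≤ ρ := (Real.exp_pos _).le
    split_ifs <;> positivity
  have k2nn : 0 ≤ (∑ s ∈ VII, Real.exp (l * (s.card - 11 / 4)) *
      (if (0 : Fin 4) ∉ s ∧ (1 : Fin 4) ∉ s then ρ else 1)) ^ a := by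
    apply pow_nonneg
    apply sum_nonneg
    intro s _
    have : 0 ≤ ρ := (Real.exp_pos _).le
    split_ifs <;> positivity
  calc _ ≤ ((a : ℝ) ^ 2 * (4 * Real.exp (l ^ 2 / 4))) ^ m *
      ((9 * Real.exp (16 * l ^ 2)) ^ a * (8 * Real.exp (16 * l ^ 2 + ρ / 2)) ^ a) := by
        apply mul_le_mul_of_nonneg_left _ (by positivity)
        exact mul_le_mul k1 k2 k2nn (by positivity)
    _ = _ := by
      unfold ZZ
      simp only [mul_pow]
      rw [← Real.exp_nat_mul, ← Real.exp_nat_mul, ← Real.exp_nat_mul]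
      have e : Real.exp (l ^ 2 / 4 * m + 32 * l ^ 2 * a + ρ / 2 * a) =
          Real.exp (m * (l ^ 2 / 4)) * (Real.exp (a * (16 * l ^ 2)) *
            Real.exp (a * (16 * l ^ 2 + ρ / 2))) := by
        rw [← Real.exp_add, ← Real.exp_add]
        congr 1
        ring
      rw [e]
      ring

theorem P2_le (a m t : ℕ) (ha : 0 < a) (l : ℝ) (hl : |l| ≤ 1 / 4) :
    ∑ f : Fin m → Fin a × Fin a, ∑ c ∈ P2 t f, Real.exp (l * ((sz c : ℝ) - m2 a m)) ≤
      ((a : ℝ) ^ 2) ^ m * (ZZ a m * Real.exp (l ^ 2 / 4 * m + 32 * l ^ 2 * a +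
        Real.exp (-((m : ℝ) / (2 * (a : ℝ) ^ 2) * t)) / 2 * a)) := by
  set ρ := Real.exp (-((m : ℝ) / (2 * (a : ℝ) ^ 2) * t)) with hρ
  have haR : (0 : ℝ) < a := by exact_mod_cast ha
  have hl2 : l ≤ 1 / 2 := by
    have := (abs_le.1 hl).2
    linarith
  have h1 : ∀ f : Fin m → Fin a × Fin a, ∑ c ∈ P2 t f, Real.exp (l * ((sz c : ℝ) - m2 a m)) =
      ∑ c1 ∈ Fintype.piFinset (fun _ : Fin a => VI),
        ∑ c2 ∈ Fintype.piFinset (fun _ : Fin a => VII),
      if t ≤ (YY c2).card then (∏ i, Real.exp (l * ((c1 i).card - 5 / 2))) *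
        (∏ j, Real.exp (l * ((c2 j).card - 8 / 3))) * ∏ b, u l (XX c1) (YY c2) (se f b)
          else 0 := fun f => sum_Dm (se f) (fun _ x => t ≤ (YY x).card) l (5 / 2) (8 / 3)
  simp_rw [h1]
  rw [sum_comm]
  have h2 : ∀ c1 ∈ Fintype.piFinset (fun _ : Fin a => VI),
      ∀ c2 ∈ Fintype.piFinset (fun _ : Fin a => VII),
      ∑ f : Fin m → Fin a × Fin a, (if t ≤ (YY c2).card then
        (∏ i, Real.exp (l * ((c1 i).card - 5 / 2))) *
        (∏ j, Real.exp (l * ((c2 j).card - 8 / 3))) * ∏ b, u l (XX c1) (YY c2) (se f b)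
          else 0) ≤
      ((a : ℝ) ^ 2 * (4 * Real.exp (l ^ 2 / 4))) ^ m *
        ((∏ i, (Real.exp (l * ((c1 i).card - 5 / 2)) *
            (if (0 : Fin 4) ∉ c1 i then ρ else 1))) *
          ∏ j, Real.exp (l * ((c2 j).card - 8 / 3))) := by
    intro c1 _ c2 _
    by_cases hx : t ≤ (YY c2).card
    · simp only [hx, if_true]
      rw [← mul_sum, prod_mul_distrib, prod_ite, prod_const, prod_const, one_pow, mul_one]
      have h3 := Phi_le (m := m) ha l hl2 (XX c1) (YY c2)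
      have h4 : Real.exp (-((m : ℝ) / (2 * (a : ℝ) ^ 2) * (XX c1).card * (YY c2).card)) ≤
          ρ ^ (XX c1).card := by
        rw [hρ, ← Real.exp_nat_mul]
        apply Real.exp_le_exp.2
        have : (t : ℝ) ≤ (YY c2).card := by exact_mod_cast hx
        have h5 : (m : ℝ) / (2 * (a : ℝ) ^ 2) * (XX c1).card * t ≤
          (m : ℝ) / (2 * (a : ℝ) ^ 2) * (XX c1).card * (YY c2).card := by gcongr
        linarith
      have h6 : (univ.filter fun j => (0 : Fin 4) ∉ c1 j).card = (XX c1).card := rfl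
      rw [h6]
      set U := (∏ i, Real.exp (l * ((c1 i).card - 5 / 2))) with hU
      set W := (∏ j, Real.exp (l * ((c2 j).card - 8 / 3))) with hW
      have hU0 : 0 < U := by positivity
      have hW0 : 0 < W := by positivity
      calc U * W * ∑ f : Fin m → Fin a × Fin a, ∏ b, u l (XX c1) (YY c2) (se f b) ≤
          U * W * (((a : ℝ) ^ 2 * (4 * Real.exp (l ^ 2 / 4))) ^ m * ρ ^ (XX c1).card) := by
            refine mul_le_mul_of_nonneg_left (h3.trans ?_) (by positivity)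
            exact mul_le_mul_of_nonneg_left h4 (by positivity)
        _ = _ := by ring
    · simp only [hx, if_false, sum_const_zero]
      have : 0 ≤ ρ := (Real.exp_pos _).le
      refine mul_nonneg (by positivity) (mul_nonneg (prod_nonneg fun i _ => ?_) (by positivity))
      split_ifs <;> positivity
  have h3 : ∑ c1 ∈ Fintype.piFinset (fun _ : Fin a => VI),
      ∑ f : Fin m → Fin a × Fin a, ∑ c2 ∈ Fintype.piFinset (fun _ : Fin a => VII),
      (if t ≤ (YY c2).card then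
        (∏ i, Real.exp (l * ((c1 i).card - 5 / 2))) *
        (∏ j, Real.exp (l * ((c2 j).card - 8 / 3))) * ∏ b, u l (XX c1) (YY c2) (se f b)
          else 0) ≤
      ∑ c1 ∈ Fintype.piFinset (fun _ : Fin a => VI),
        ∑ c2 ∈ Fintype.piFinset (fun _ : Fin a => VII),
        ((a : ℝ) ^ 2 * (4 * Real.exp (l ^ 2 / 4))) ^ m *
        ((∏ i, (Real.exp (l * ((c1 i).card - 5 / 2)) *
            (if (0 : Fin 4) ∉ c1 i then ρ else 1))) *
          ∏ j, Real.exp (l * ((c2 j).card - 8 / 3))) := by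
    apply sum_le_sum
    intro c1 hc1
    rw [sum_comm]
    exact sum_le_sum fun c2 hc2 => h2 c1 hc1 c2 hc2
  refine h3.trans ?_
  simp_rw [← mul_sum]
  rw [← sum_mul]
  rw [prod_sum_VI a VII (fun s => Real.exp (l * (s.card - 8 / 3))),
    prod_sum_VI a VI (fun s => Real.exp (l * (s.card - 5 / 2)) *
      (if (0 : Fin 4) ∉ s then ρ else 1))]
  have g1 := gad VII (8 / 3) (by norm_num) (by norm_num) sumVII l hl
  have g2 := gad2 VI (fun s => (0 : Fin 4) ∉ s) (5 / 2) (by norm_num)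
    (by norm_num) cVI8 cVI1 sVI8 l ρ hl (Real.exp_pos _).le
  have c9 : (VII.card : ℝ) = 9 := by
    have : VII.card = 9 := by decide
    rw [this]; norm_num
  rw [c9] at g1
  have k1 : (∑ s ∈ VII, Real.exp (l * (s.card - 8 / 3))) ^ a ≤ (9 * Real.exp (16 * l ^ 2)) ^ a :=
    pow_le_pow_left₀ (sum_nonneg fun s _ => (Real.exp_pos _).le) g1 a
  have k2nn' : 0 ≤ (∑ s ∈ VI, Real.exp (l * (s.card - 5 / 2)) *
      (if (0 : Fin 4) ∉ s then ρ else 1)) := by
    apply sum_nonneg
    intro s _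
    have : 0 ≤ ρ := (Real.exp_pos _).le
    split_ifs <;> positivity
  have k2 : (∑ s ∈ VI, Real.exp (l * (s.card - 5 / 2)) *
      (if (0 : Fin 4) ∉ s then ρ else 1)) ^ a ≤
      (8 * Real.exp (16 * l ^ 2 + ρ / 2)) ^ a := pow_le_pow_left₀ k2nn' g2 a
  have k1nn : 0 ≤ (∑ s ∈ VII, Real.exp (l * (s.card - 8 / 3))) ^ a := by positivity
  calc _ ≤ ((a : ℝ) ^ 2 * (4 * Real.exp (l ^ 2 / 4))) ^ m *
      ((8 * Real.exp (16 * l ^ 2 + ρ / 2)) ^ a * (9 * Real.exp (16 * l ^ 2)) ^ a) := by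
        apply mul_le_mul_of_nonneg_left _ (by positivity)
        exact mul_le_mul k2 k1 k1nn (by positivity)
    _ = _ := by
      unfold ZZ
      simp only [mul_pow]
      rw [← Real.exp_nat_mul, ← Real.exp_nat_mul, ← Real.exp_nat_mul]
      have e : Real.exp (l ^ 2 / 4 * m + 32 * l ^ 2 * a + ρ / 2 * a) =
          Real.exp (m * (l ^ 2 / 4)) * (Real.exp (a * (16 * l ^ 2)) *
            Real.exp (a * (16 * l ^ 2 + ρ / 2))) := by
        rw [← Real.exp_add, ← Real.exp_add]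
        congr 1
        ring
      rw [e]
      ring

theorem P3_le (a m t : ℕ) (ha : 0 < a) :
    ∑ f : Fin m → Fin a × Fin a, ((P3 t f).card : ℝ) ≤
      ((a : ℝ) ^ 2) ^ m * (4 ^ m * ((8 + 1 / 4) ^ a * (8 + 1 / 4) ^ a * 16 ^ t)) := by
  have haR : (0 : ℝ) < a := by exact_mod_cast ha
  have h1 : ∀ f : Fin m → Fin a × Fin a, ((P3 t f).card : ℝ) =
      ∑ c1 ∈ Fintype.piFinset (fun _ : Fin a => VI),
        ∑ c2 ∈ Fintype.piFinset (fun _ : Fin a => VII),
      if (XX c1).card < t ∧ (YY c2).card < t then ∏ b, u 0 (XX c1) (YY c2) (se f b)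
          else 0 := by
    intro f
    have := sum_Dm (se f) (fun x y => (XX x).card < t ∧ (YY y).card < t) 0 0 0
    simp only [zero_mul, Real.exp_zero, prod_const_one, mul_one, one_mul, sum_const,
      nsmul_eq_mul] at this
    exact this
  simp_rw [h1]
  rw [sum_comm]
  have h3 : ∑ c1 ∈ Fintype.piFinset (fun _ : Fin a => VI),
      ∑ f : Fin m → Fin a × Fin a, ∑ c2 ∈ Fintype.piFinset (fun _ : Fin a => VII),
      (if (XX c1).card < t ∧ (YY c2).card < t then ∏ b, u 0 (XX c1) (YY c2) (se f b) else 0) ≤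
      ∑ c1 ∈ Fintype.piFinset (fun _ : Fin a => VI),
        ∑ c2 ∈ Fintype.piFinset (fun _ : Fin a => VII),
        ((a : ℝ) ^ 2) ^ m * 4 ^ m * ((1 / 4) ^ (XX c1).card * (1 / 4) ^ (YY c2).card * 16 ^ t) := by
    apply sum_le_sum
    intro c1 hc1
    rw [sum_comm]
    refine sum_le_sum fun c2 hc2 => ?_
    by_cases hx : (XX c1).card < t ∧ (YY c2).card < t
    · simp only [hx, and_self, if_true]
      have h3 := Phi_le (m := m) ha 0 (by norm_num) (XX c1) (YY c2)
      have h4 : Real.exp (-((m : ℝ) / (2 * (a : ℝ) ^ 2) * (XX c1).card * (YY c2).card)) ≤ 1 := by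
        rw [Real.exp_le_one_iff]
        have : 0 ≤ (m : ℝ) / (2 * (a : ℝ) ^ 2) * (XX c1).card * (YY c2).card := by positivity
        linarith
      have h5 : (1 : ℝ) ≤ (1 / 4) ^ (XX c1).card * (1 / 4) ^ (YY c2).card * 16 ^ t := by
        have e1 : (1 / 4 : ℝ) ^ t ≤ (1 / 4) ^ (XX c1).card :=
          pow_le_pow_of_le_one (by norm_num) (by norm_num) hx.1.le
        have e2 : (1 / 4 : ℝ) ^ t ≤ (1 / 4) ^ (YY c2).card :=
          pow_le_pow_of_le_one (by norm_num) (by norm_num) hx.2.le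
        calc (1 : ℝ) = (1 / 4) ^ t * (1 / 4) ^ t * 16 ^ t := by
              rw [← mul_pow, ← mul_pow]; norm_num
          _ ≤ _ := by gcongr
      calc _ ≤ ((a : ℝ) ^ 2 * (4 * Real.exp (0 ^ 2 / 4))) ^ m *
            Real.exp (-((m : ℝ) / (2 * (a : ℝ) ^ 2) * (XX c1).card * (YY c2).card)) := h3
        _ ≤ ((a : ℝ) ^ 2 * (4 * Real.exp (0 ^ 2 / 4))) ^ m * 1 :=
            mul_le_mul_of_nonneg_left h4 (by positivity)
        _ = ((a : ℝ) ^ 2) ^ m * 4 ^ m * 1 := by
            norm_num [mul_pow]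
        _ ≤ _ := mul_le_mul_of_nonneg_left h5 (by positivity)
    · simp only [hx, if_false, sum_const_zero]
      positivity
  refine h3.trans (le_of_eq ?_)
  simp_rw [← mul_sum]
  have f3 : ∑ c1 ∈ Fintype.piFinset (fun _ : Fin a => VI),
      ∑ c2 ∈ Fintype.piFinset (fun _ : Fin a => VII),
        ((1 / 4 : ℝ) ^ (XX c1).card * (1 / 4) ^ (YY c2).card * 16 ^ t) =
        (8 + 1 / 4) ^ a * (8 + 1 / 4) ^ a * 16 ^ t := by
    calc _ = (∑ c1 ∈ Fintype.piFinset (fun _ : Fin a => VI), (1 / 4 : ℝ) ^ (XX c1).card) *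
          (∑ c2 ∈ Fintype.piFinset (fun _ : Fin a => VII), (1 / 4 : ℝ) ^ (YY c2).card) *
            16 ^ t := by
          rw [sum_mul_sum, sum_mul]
          simp_rw [sum_mul]
      _ = _ := by rw [sum_XX, sum_YY]
  rw [← f3]
  simp_rw [mul_sum]
  ring_nf

/-- Counting configurations by the class of their non-dominating gadgets. -/
lemma class_sum {a : ℕ} (A : Finset (Finset (Fin 4))) (q : Finset (Fin 4) → Prop)
    [DecidablePred q] (h1 : (A.filter q).card = 1) (h8 : (A.filter fun s => ¬ q s).card = 8)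
    (F : Finset (Fin a) → ℝ) :
    ∑ c ∈ Fintype.piFinset (fun _ : Fin a => A), F (univ.filter fun i => q (c i)) =
      ∑ X : Finset (Fin a), 8 ^ (a - X.card) * F X := by
  rw [← Finset.sum_fiberwise (Fintype.piFinset (fun _ : Fin a => A))
    (fun c => univ.filter fun i => q (c i))]
  apply sum_congr rfl
  intro X _
  have hset : (Fintype.piFinset (fun _ : Fin a => A)).filter
      (fun c => (univ.filter fun i => q (c i)) = X) =
      Fintype.piFinset (fun i => if i ∈ X then A.filter q else A.filter fun s => ¬ q s) := by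
    ext c
    simp only [mem_filter, Fintype.mem_piFinset]
    constructor
    · rintro ⟨h, rfl⟩ i
      by_cases hi : q (c i)
      · simp [hi, h i]
      · simp [hi, h i]
    · intro h
      refine ⟨fun i => ?_, ?_⟩
      · have := h i
        split_ifs at this
        · exact (mem_filter.1 this).1
        · exact (mem_filter.1 this).1
      · ext i
        simp only [mem_filter, mem_univ, true_and]
        have := h i
        by_cases hi : i ∈ X
        · rw [if_pos hi, mem_filter] at this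
          exact ⟨fun _ => hi, fun _ => this.2⟩
        · rw [if_neg hi, mem_filter] at this
          exact ⟨fun h => absurd h this.2, fun h => absurd h hi⟩
  have hc : ((Fintype.piFinset (fun _ : Fin a => A)).filter
      (fun c => (univ.filter fun i => q (c i)) = X)).card = 8 ^ (a - X.card) := by
    rw [hset, Fintype.card_piFinset]
    have : ∀ i : Fin a, (if i ∈ X then A.filter q else A.filter fun s => ¬ q s).card =
        if i ∈ X then 1 else 8 := by
      intro i
      split_ifs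
      · exact h1
      · exact h8
    simp_rw [this]
    rw [prod_ite, prod_const, prod_const, one_pow, one_mul]
    congr 1
    have h2 := Finset.card_filter_add_card_filter_not (s := (univ : Finset (Fin a)))
      (fun i => i ∈ X)
    have h3 : (univ.filter fun i => i ∈ X) = X := by ext; simp
    rw [h3, card_univ, Fintype.card_fin] at h2
    omega
  have : ∀ c ∈ (Fintype.piFinset (fun _ : Fin a => A)).filter
      (fun c => (univ.filter fun i => q (c i)) = X),
      F (univ.filter fun i => q (c i)) = F X := fun c hc => by rw [(mem_filter.1 hc).2]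
  rw [sum_congr rfl this, sum_const, hc, nsmul_eq_mul]
  push_cast
  rfl

/-- The two phases have the same size. -/
theorem card_P1_eq_P2 {a m : ℕ} (t : ℕ) (f : Fin m → Fin a × Fin a) :
    ((P1 t f).card : ℝ) = (P2 t f).card := by
  have e1 : ((P1 t f).card : ℝ) =
      ∑ c1 ∈ Fintype.piFinset (fun _ : Fin a => VI),
        ∑ c2 ∈ Fintype.piFinset (fun _ : Fin a => VII),
      if t ≤ (XX c1).card then ∏ b, u 0 (XX c1) (YY c2) (se f b) else 0 := by
    have := sum_Dm (se f) (fun x _ => t ≤ (XX x).card) 0 0 0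
    simp only [zero_mul, Real.exp_zero, prod_const_one, one_mul, sum_const,
      nsmul_eq_mul, mul_one] at this
    exact this
  have e2 : ((P2 t f).card : ℝ) =
      ∑ c1 ∈ Fintype.piFinset (fun _ : Fin a => VI),
        ∑ c2 ∈ Fintype.piFinset (fun _ : Fin a => VII),
      if t ≤ (YY c2).card then ∏ b, u 0 (XX c1) (YY c2) (se f b) else 0 := by
    have := sum_Dm (se f) (fun _ y => t ≤ (YY y).card) 0 0 0
    simp only [zero_mul, Real.exp_zero, prod_const_one, one_mul, sum_const,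
      nsmul_eq_mul, mul_one] at this
    exact this
  have hsym : ∀ X Y : Finset (Fin a), ∏ b, u 0 X Y (se f b) = ∏ b, u 0 Y X (se f b) := by
    intro X Y
    rw [Fin.prod_univ_add, Fin.prod_univ_add]
    simp only [se, Fin.append_left, Fin.append_right, u_swap]
    rw [mul_comm]
  have k : ∀ F : Finset (Fin a) → Finset (Fin a) → ℝ,
      ∑ c1 ∈ Fintype.piFinset (fun _ : Fin a => VI),
        ∑ c2 ∈ Fintype.piFinset (fun _ : Fin a => VII), F (XX c1) (YY c2) =
      ∑ X : Finset (Fin a), ∑ Y : Finset (Fin a),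
        8 ^ (a - X.card) * (8 ^ (a - Y.card) * F X Y) := by
    intro F
    have h1 : ∀ c1 : Fin a → Finset (Fin 4),
        ∑ c2 ∈ Fintype.piFinset (fun _ : Fin a => VII), F (XX c1) (YY c2) =
        ∑ Y : Finset (Fin a), 8 ^ (a - Y.card) * F (XX c1) Y := fun c1 =>
      class_sum VII (fun s => (0 : Fin 4) ∉ s ∧ (1 : Fin 4) ∉ s) cVII1 cVII8 (F (XX c1))
    simp_rw [h1]
    have h2 := class_sum (a := a) VI (fun s => (0 : Fin 4) ∉ s) cVI1 cVI8
      (fun X => ∑ Y : Finset (Fin a), 8 ^ (a - Y.card) * F X Y)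
    simp_rw [← mul_sum]
    exact h2
  rw [e1, e2, k (fun X Y => if t ≤ X.card then ∏ b, u 0 X Y (se f b) else 0),
    k (fun X Y => if t ≤ Y.card then ∏ b, u 0 X Y (se f b) else 0), sum_comm]
  apply sum_congr rfl
  intro X _
  apply sum_congr rfl
  intro Y _
  rw [hsym Y X]
  ring

end Pool.Agent.H44.ModeAvd
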