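import Pool.Agent.H44.ModeAvd2

/-!
# Existence of good symmetric edges, and the abstract gap lemma (helper file)
-/

set_option autoImplicit false

namespace Pool.Agent.H44.ModeAvd

open Finset Pool.Agent.H224R3.Dom

/-- Mean and mode of a size function with two equal phases. -/
theorem gap_abstract {α : Type*} [DecidableEq α] (A Q1 Q2 B : Finset α) (s : α → ℕ) (n : ℕ)
    (hs : ∀ c ∈ A, s c ≤ n) (hQ1 : Q1 ⊆ A) (hQ2 : Q2 ⊆ A) (hBA : B ⊆ A)
    (hcov : A ⊆ Q1 ∪ Q2 ∪ B) (heq : (Q1.card : ℝ) = Q2.card) (μ1 μ2 D : ℝ)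
    (hn1 : ∀ c ∈ Q1, c ∉ B → |(s c : ℝ) - μ1| < D) (hn2 : ∀ c ∈ Q2, c ∉ B → |(s c : ℝ) - μ2| < D)
    (hsep : 2 * D ≤ μ1 - μ2) (h20 : 0 ≤ μ2) (h1n : μ1 ≤ n) (hD : 0 ≤ D)
    (hB : (B.card : ℝ) * (n + 1) * 2 < A.card) (k : ℕ)
    (hk : ∀ i, (A.filter fun c => s c = i).card ≤ (A.filter fun c => s c = k).card) :
    (μ1 - μ2) / 2 - 2 * D - 1 ≤ |(k : ℝ) - (∑ c ∈ A, (s c : ℝ)) / A.card| := by
  set T : ℝ := (A.card : ℝ) with hT
  have hBnn : (0 : ℝ) ≤ B.card := Nat.cast_nonneg _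
  have hn0 : (0 : ℝ) ≤ n := Nat.cast_nonneg _
  have hTpos : 0 < T := lt_of_le_of_lt (by positivity) hB
  set mid := (μ1 + μ2) / 2 with hmid
  set h := (μ1 - μ2) / 2 with hh
  have hdisj : Disjoint (Q1 \ B) (Q2 \ B) := by
    rw [disjoint_left]
    intro c h1 h2
    rw [mem_sdiff] at h1 h2
    have e1 := abs_lt.1 (hn1 c h1.1 h1.2)
    have e2 := abs_lt.1 (hn2 c h2.1 h2.2)
    linarith
  have hdisj2 : Disjoint (Q1 \ B ∪ Q2 \ B) B := by
    rw [disjoint_left]
    intro c h1 h2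
    rw [mem_union, mem_sdiff, mem_sdiff] at h1
    rcases h1 with h1 | h1 <;> exact h1.2 h2
  have hA : A = (Q1 \ B ∪ Q2 \ B) ∪ B := by
    ext c
    simp only [mem_union, mem_sdiff]
    constructor
    · intro hc
      have := hcov hc
      simp only [mem_union] at this
      tauto
    · rintro ((⟨h1, _⟩ | ⟨h1, _⟩) | h1)
      · exact hQ1 h1
      · exact hQ2 h1
      · exact hBA h1
  set N1 : ℝ := ((Q1 \ B).card : ℝ) with hN1
  set N2 : ℝ := ((Q2 \ B).card : ℝ) with hN2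
  have hTN : T = N1 + N2 + B.card := by
    rw [hT, hA, card_union_of_disjoint hdisj2, card_union_of_disjoint hdisj]
    push_cast
    rfl
  have hd1 : (Q1.card : ℝ) = N1 + (Q1 ∩ B).card := by
    rw [hN1]
    exact_mod_cast (Finset.card_sdiff_add_card_inter Q1 B).symm
  have hd2 : (Q2.card : ℝ) = N2 + (Q2 ∩ B).card := by
    rw [hN2]
    exact_mod_cast (Finset.card_sdiff_add_card_inter Q2 B).symm
  have hi1 : ((Q1 ∩ B).card : ℝ) ≤ B.card := by exact_mod_cast card_le_card inter_subset_right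
  have hi2 : ((Q2 ∩ B).card : ℝ) ≤ B.card := by exact_mod_cast card_le_card inter_subset_right
  have hi1' : (0 : ℝ) ≤ (Q1 ∩ B).card := Nat.cast_nonneg _
  have hi2' : (0 : ℝ) ≤ (Q2 ∩ B).card := Nat.cast_nonneg _
  have hN12 : |N1 - N2| ≤ B.card := abs_le.2 ⟨by linarith, by linarith⟩
  have hN1nn : 0 ≤ N1 := Nat.cast_nonneg _
  have hN2nn : 0 ≤ N2 := Nat.cast_nonneg _
  -- the sum of the deviations
  have hsum : ∑ c ∈ A, ((s c : ℝ) - mid) = (∑ c ∈ Q1 \ B, ((s c : ℝ) - μ1) + N1 * h) +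
      (∑ c ∈ Q2 \ B, ((s c : ℝ) - μ2) - N2 * h) + ∑ c ∈ B, ((s c : ℝ) - mid) := by
    conv_lhs => rw [hA]
    rw [sum_union hdisj2, sum_union hdisj]
    congr 1
    congr 1
    · rw [hN1, card_eq_sum_ones, Nat.cast_sum, sum_mul, ← sum_add_distrib]
      apply sum_congr rfl
      intro c _
      rw [hmid, hh]; push_cast; ring
    · rw [hN2, card_eq_sum_ones, Nat.cast_sum, sum_mul, ← sum_sub_distrib]
      apply sum_congr rfl
      intro c _
      rw [hmid, hh]; push_cast; ring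
  have b1 : |∑ c ∈ Q1 \ B, ((s c : ℝ) - μ1)| ≤ N1 * D := by
    refine (abs_sum_le_sum_abs _ _).trans ?_
    rw [hN1, ← nsmul_eq_mul]
    refine sum_le_card_nsmul _ _ _ fun c hc => ?_
    rw [mem_sdiff] at hc
    exact (hn1 c hc.1 hc.2).le
  have b2 : |∑ c ∈ Q2 \ B, ((s c : ℝ) - μ2)| ≤ N2 * D := by
    refine (abs_sum_le_sum_abs _ _).trans ?_
    rw [hN2, ← nsmul_eq_mul]
    refine sum_le_card_nsmul _ _ _ fun c hc => ?_
    rw [mem_sdiff] at hc
    exact (hn2 c hc.1 hc.2).le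
  have b3 : |∑ c ∈ B, ((s c : ℝ) - mid)| ≤ B.card * n := by
    refine (abs_sum_le_sum_abs _ _).trans ?_
    rw [← nsmul_eq_mul]
    refine sum_le_card_nsmul _ _ _ fun c hc => ?_
    have h1 : (s c : ℝ) ≤ n := by exact_mod_cast hs c (hBA hc)
    have h2 : (0 : ℝ) ≤ s c := Nat.cast_nonneg _
    have h3 : 0 ≤ mid := by rw [hmid]; linarith
    have h4 : mid ≤ n := by rw [hmid]; linarith
    exact abs_le.2 ⟨by linarith, by linarith⟩
  have hhn : h ≤ n := by rw [hh]; linarith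
  have hh0 : 0 ≤ h := by rw [hh]; linarith
  have hdev : |∑ c ∈ A, ((s c : ℝ) - mid)| ≤ T * D + T := by
    rw [hsum]
    have e1 := abs_le.1 b1
    have e2 := abs_le.1 b2
    have e3 := abs_le.1 b3
    have e4 := abs_le.1 hN12
    have e5 : |(N1 - N2) * h| ≤ B.card * n := by
      rw [abs_mul, abs_of_nonneg hh0]
      exact mul_le_mul hN12 hhn hh0 hBnn
    have e6 := abs_le.1 e5
    have e7 : (N1 + N2) * D ≤ T * D := by
      apply mul_le_mul_of_nonneg_right _ hD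
      rw [hTN]; linarith
    rw [abs_le]
    constructor
    · linarith [e1.1, e2.1, e3.1, e6.1]
    · linarith [e1.2, e2.2, e3.2, e6.2]
  have havd : |(∑ c ∈ A, (s c : ℝ)) / T - mid| ≤ D + 1 := by
    have e1 : (∑ c ∈ A, (s c : ℝ)) / T - mid = (∑ c ∈ A, ((s c : ℝ) - mid)) / T := by
      rw [sum_sub_distrib, sum_const, nsmul_eq_mul, ← hT]
      field_simp
    rw [e1, abs_div, abs_of_pos hTpos, div_le_iff₀ hTpos]
    linarith
  -- the mode
  have hmode : ∃ c ∈ A, s c = k ∧ c ∉ B := by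
    by_contra hcon
    push Not at hcon
    have h1 : (A.filter fun c => s c = k) ⊆ B := by
      intro c hc
      rw [mem_filter] at hc
      exact hcon c hc.1 hc.2
    have h2 : A.card = ∑ i ∈ range (n + 1), (A.filter fun c => s c = i).card := by
      apply card_eq_sum_card_fiberwise
      intro c hc
      have := hs c hc
      simp only [coe_range, Set.mem_Iio]
      omega
    have h3 : A.card ≤ (n + 1) * B.card := by
      rw [h2]
      calc _ ≤ ∑ i ∈ range (n + 1), B.card :=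
            sum_le_sum fun i _ => (hk i).trans (card_le_card h1)
        _ = (n + 1) * B.card := by rw [sum_const, card_range, smul_eq_mul]
    have h4 : T ≤ (n + 1) * B.card := by rw [hT]; exact_mod_cast h3
    linarith
  obtain ⟨c, hcA, hck, hcB⟩ := hmode
  have hc := hcov hcA
  rw [mem_union, mem_union] at hc
  have e1 := abs_le.1 havd
  rcases hc with (hc | hc) | hc
  · have e2 := abs_lt.1 (hn1 c hc hcB)
    rw [hck] at e2
    refine le_trans ?_ (le_abs_self _)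
    rw [hmid] at e1
    rw [hh]
    linarith
  · have e2 := abs_lt.1 (hn2 c hc hcB)
    rw [hck] at e2
    refine le_trans ?_ (neg_le_abs _)
    rw [hmid] at e1
    rw [hh]
    linarith
  · exact absurd hc hcB

/-- Exponential Markov bound. -/
lemma bad_le {α : Type*} (P : Finset α) (s : α → ℕ) (μ D l : ℝ) (hl : 0 ≤ l) :
    ((P.filter fun c => D ≤ |(s c : ℝ) - μ|).card : ℝ) ≤
      Real.exp (-(l * D)) * (∑ c ∈ P, Real.exp (l * ((s c : ℝ) - μ)) +
        ∑ c ∈ P, Real.exp (-l * ((s c : ℝ) - μ))) := by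
  rw [← sum_add_distrib, mul_sum, card_eq_sum_ones, Nat.cast_sum]
  calc ∑ c ∈ P.filter (fun c => D ≤ |(s c : ℝ) - μ|), ((1 : ℕ) : ℝ) ≤
      ∑ c ∈ P.filter (fun c => D ≤ |(s c : ℝ) - μ|),
        Real.exp (-(l * D)) * (Real.exp (l * ((s c : ℝ) - μ)) +
          Real.exp (-l * ((s c : ℝ) - μ))) := by
        apply sum_le_sum
        intro c hc
        rw [mem_filter] at hc
        push_cast
        have h1 : l * D ≤ l * |(s c : ℝ) - μ| := mul_le_mul_of_nonneg_left hc.2 hl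
        have h2 : Real.exp (l * D) ≤ Real.exp (l * ((s c : ℝ) - μ)) +
            Real.exp (-l * ((s c : ℝ) - μ)) := by
          refine (Real.exp_le_exp.2 h1).trans ?_
          rcases abs_cases ((s c : ℝ) - μ) with ⟨h, _⟩ | ⟨h, _⟩
          · rw [h]
            have := Real.exp_pos (-l * ((s c : ℝ) - μ))
            linarith
          · rw [h, show l * -((s c : ℝ) - μ) = -l * ((s c : ℝ) - μ) by ring]
            have := Real.exp_pos (l * ((s c : ℝ) - μ))
            linarith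
        calc (1 : ℝ) = Real.exp (-(l * D)) * Real.exp (l * D) := by
              rw [← Real.exp_add]; simp
          _ ≤ _ := mul_le_mul_of_nonneg_left h2 (Real.exp_pos _).le
    _ ≤ _ := by
        apply sum_le_sum_of_subset_of_nonneg (filter_subset _ _)
        intro c _ _
        positivity

/-- The exceptional configurations. -/
noncomputable def Bad {a m : ℕ} (t : ℕ) (D : ℝ) (f : Fin m → Fin a × Fin a) :
    Finset (C a (m + m)) :=
  ((P1 t f).filter fun c => D ≤ |(sz c : ℝ) - m1 a m|) ∪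
  ((P2 t f).filter fun c => D ≤ |(sz c : ℝ) - m2 a m|) ∪ P3 t f

theorem exists_f (a m t : ℕ) (ha : 0 < a) (l D : ℝ) (hl0 : 0 ≤ l) (hl : l ≤ 1 / 4) :
    ∃ f : Fin m → Fin a × Fin a, ((Bad t D f).card : ℝ) ≤
      4 * (Real.exp (-(l * D)) * (ZZ a m * Real.exp (l ^ 2 / 4 * m + 32 * l ^ 2 * a +
        Real.exp (-((m : ℝ) / (2 * (a : ℝ) ^ 2) * t)) / 2 * a))) +
      4 ^ m * ((8 + 1 / 4) ^ a * (8 + 1 / 4) ^ a * 16 ^ t) := by
  set E := Real.exp (l ^ 2 / 4 * m + 32 * l ^ 2 * a +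
        Real.exp (-((m : ℝ) / (2 * (a : ℝ) ^ 2) * t)) / 2 * a) with hE
  set R : ℝ := 4 * (Real.exp (-(l * D)) * (ZZ a m * E)) +
      4 ^ m * ((8 + 1 / 4) ^ a * (8 + 1 / 4) ^ a * 16 ^ t) with hR
  have habs : |l| ≤ 1 / 4 := by rw [abs_of_nonneg hl0]; exact hl
  have habs' : |(-l)| ≤ 1 / 4 := by rw [abs_neg]; exact habs
  have hW : ∀ f : Fin m → Fin a × Fin a, ((Bad t D f).card : ℝ) ≤
      Real.exp (-(l * D)) * (∑ c ∈ P1 t f, Real.exp (l * ((sz c : ℝ) - m1 a m)) +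
        ∑ c ∈ P1 t f, Real.exp (-l * ((sz c : ℝ) - m1 a m))) +
      Real.exp (-(l * D)) * (∑ c ∈ P2 t f, Real.exp (l * ((sz c : ℝ) - m2 a m)) +
        ∑ c ∈ P2 t f, Real.exp (-l * ((sz c : ℝ) - m2 a m))) + (P3 t f).card := by
    intro f
    have h1 := bad_le (P1 t f) sz (m1 a m) D l hl0
    have h2 := bad_le (P2 t f) sz (m2 a m) D l hl0
    have h3 : ((Bad t D f).card : ℝ) ≤
        ((P1 t f).filter fun c => D ≤ |(sz c : ℝ) - m1 a m|).card +
        ((P2 t f).filter fun c => D ≤ |(sz c : ℝ) - m2 a m|).card + (P3 t f).card := by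
      unfold Bad
      have e1 := card_union_le (((P1 t f).filter fun c => D ≤ |(sz c : ℝ) - m1 a m|) ∪
        ((P2 t f).filter fun c => D ≤ |(sz c : ℝ) - m2 a m|)) (P3 t f)
      have e2 := card_union_le ((P1 t f).filter fun c => D ≤ |(sz c : ℝ) - m1 a m|)
        ((P2 t f).filter fun c => D ≤ |(sz c : ℝ) - m2 a m|)
      exact_mod_cast e1.trans (by omega)
    linarith
  have hne : (univ : Finset (Fin m → Fin a × Fin a)).Nonempty :=
    ⟨fun _ => (⟨0, ha⟩, ⟨0, ha⟩), mem_univ _⟩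
  have hcard : ((univ : Finset (Fin m → Fin a × Fin a)).card : ℝ) = ((a : ℝ) ^ 2) ^ m := by
    rw [card_univ, Fintype.card_fun, Fintype.card_prod, Fintype.card_fin, Fintype.card_fin]
    push_cast
    ring
  have hsum : ∑ f : Fin m → Fin a × Fin a, ((Bad t D f).card : ℝ) ≤
      ∑ f : Fin m → Fin a × Fin a, R := by
    refine (sum_le_sum fun f _ => hW f).trans ?_
    rw [sum_const, nsmul_eq_mul, hcard]
    simp_rw [sum_add_distrib, ← mul_sum]
    rw [sum_add_distrib, sum_add_distrib]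
    have p1 := P1_le a m t ha l habs
    have p1' := P1_le a m t ha (-l) habs'
    have p2 := P2_le a m t ha l habs
    have p2' := P2_le a m t ha (-l) habs'
    have p3 := P3_le a m t ha
    rw [neg_sq] at p1' p2'
    rw [← hE] at p1 p1' p2 p2'
    have hx := Real.exp_pos (-(l * D))
    set x := Real.exp (-(l * D)) with hxdef
    have q1 := mul_le_mul_of_nonneg_left p1 hx.le
    have q1' := mul_le_mul_of_nonneg_left p1' hx.le
    have q2 := mul_le_mul_of_nonneg_left p2 hx.le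
    have q2' := mul_le_mul_of_nonneg_left p2' hx.le
    have hRe : ((a : ℝ) ^ 2) ^ m * R = x * (((a : ℝ) ^ 2) ^ m * (ZZ a m * E)) +
        x * (((a : ℝ) ^ 2) ^ m * (ZZ a m * E)) + x * (((a : ℝ) ^ 2) ^ m * (ZZ a m * E)) +
        x * (((a : ℝ) ^ 2) ^ m * (ZZ a m * E)) +
        ((a : ℝ) ^ 2) ^ m * (4 ^ m * ((8 + 1 / 4) ^ a * (8 + 1 / 4) ^ a * 16 ^ t)) := by
      rw [hR]; ring
    rw [hRe]
    linarith
  obtain ⟨f, _, hf⟩ := Finset.exists_le_of_sum_le hne hsum
  exact ⟨f, hf⟩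

end Pool.Agent.H44.ModeAvd
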